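import Pool.Agent.Helper94.Rigid

/-!
Every finitely generated non-abelian rigid metabelian group is bi-interpretable (with parameters)
with the standard model of arithmetic.
-/

namespace Pool.Agent.Results.MP_c25739_lc.BiInterp

open Pool.Agent.Helper94

universe u

/-- Every finitely generated, non-abelian, metabelian rigid group is bi-interpretable with
`(ℕ; +, *)`. -/
theorem result (G : Type u) [Group G] (hfg : Group.FG G) (hrigid : IsRigidMetabelian G)
    (hna : ¬ ∀ x y : G, x * y = y * x) : BiInterpretable groupLang G arithLang ℕ :=
  main hrigid hna

end Pool.Agent.Results.MP_c25739_lc.BiInterp
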